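import Mathlib
import Pool.Agent.H789.NK.Ml

/-!
# Malle's conjecture for `C₂ ≀ H`, `H` the top of a tower with norm-one kernels

`Steps K` and `IsNormOnePower` are defined in the file `Pool/Agent/H789/NK/Defs.lean`. `Steps K` is
the smallest class of homomorphisms `p : W' → W` of groups which

* contains the class `Cls K` of the file `Pool/Agent/TH444/TW/ClsDef.lean`: the smallest class closed
  under composition and quotients which contains all `p` with a homomorphic section and a finite
  abelian kernel, the projections `A^k ⋊ W → W`, `A` the group of a regular Galois extension of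
  `K(t)`, `W` acting through `W → A ≀ S_k`, the projections `(G ≀ S_n)^k ⋊ W → W`, `G` any finite
  group, `n ≥ ((3 |G| + 2)!)^3`, `W` acting through `W → Aut(G) ≀ S_k`, and all epimorphisms whose
  kernel is a direct product of groups `G_i ≀ S_(n_i)`, `G_i` a nontrivial finite group with trivial
  centre and with `Inn G_i` complemented in `Aut G_i`, `n_i ≥ ((3 |G_i| + 2)!)^3`,
* contains the projections `N^k ⋊ W → W`, `N` the norm-one subgroup of `G ≀ S_n` (all `(f, σ)` with
  `∏ [f i] = 1` in the abelianization of `G`), where `G` is any finite group,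
  `n ≥ ((3 |G| + 2)!)^3`, and `W` acts through any homomorphism `W → Aut(G) ≀ S_k`,
* is closed under composition, and under quotients (if `p ∘ q` is in the class and `q` is
  surjective, then `p` is in the class).

Let `K` be a number field, `W` a Galois group over `K` and `p : H → W` in `Steps K`. If `H` has a
subgroup of index `u` with trivial normal core and `8 u (u + 1) ≤ |H|`, then the number of extensions
of `K` with group `C₂ ≀ H`, acting on `H × {0, 1}`, is asymptotic to `c B`. This applies to all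
nontrivial extensions `H = N^k ⋊ W` as above if `n ≥ ((3 |A| |W| + 2)!)^3`; an example is the wreath
product `H = N ≀ T` of `N` with a group `T` of permutations which is a Galois group over `K`.
-/

set_option autoImplicit false

open Filter
open Pool.Agent.H789.NK (Steps IsNormOnePower)

namespace Pool.Agent.Results.MP_a3214d_nt.NormOneTowers

/-- `Γ` is a Galois group over `K`. -/
def IsGaloisGroupOver (K Γ : Type) [Field K] [Group Γ] : Prop :=
  ∃ (L : Type) (_ : Field L) (_ : Algebra K L), IsGalois K L ∧ Nonempty (Γ ≃* (L ≃ₐ[K] L))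

/-- `G ≤ S_d` is, up to a bijection `f` of `{1, ..., d}` with `H × {0, 1}`, the wreath product
`C₂ ≀ H`: it consists of all permutations `π` for which there is `h ∈ H` such that `π` maps the block
`{x} × {0, 1}` to the block `{h x} × {0, 1}`, for all `x ∈ H`. -/
def IsC2Wreath (H : Type) [Group H] {d : ℕ} (G : Subgroup (Equiv.Perm (Fin d))) : Prop :=
  ∃ f : Fin d ≃ H × Bool, ∀ π : Equiv.Perm (Fin d), π ∈ G ↔ ∃ h : H, ∀ i, (f (π i)).1 = h * (f i).1

/-- The fields `L` between `K` and its algebraic closure, of degree `d` over `K`, whose Galois group,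
acting on the embeddings, is `G` (up to numbering), and whose relative discriminant has norm at most
`B` (that is, `|d_L| ≤ B |d_K| ^ d`). -/
def Ext (K : Type) [Field K] [NumberField K] (d : ℕ) (G : Subgroup (Equiv.Perm (Fin d)))
    (B : ℝ) : Set (IntermediateField K (AlgebraicClosure K)) :=
  {L | Module.finrank K L = d ∧
    (∃ e : (L →ₐ[K] AlgebraicClosure K) ≃ Fin d, ∀ π : Equiv.Perm (Fin d),
      π ∈ G ↔ ∃ σ : AlgebraicClosure K ≃ₐ[K] AlgebraicClosure K,
        ∀ φ : L →ₐ[K] AlgebraicClosure K, e (σ.toAlgHom.comp φ) = π (e φ)) ∧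
    ∃ h : NumberField L,
      ((|@NumberField.discr L _ h| : ℤ) : ℝ) ≤ B * ((|NumberField.discr K| : ℤ) : ℝ) ^ d}

/-- `N(K, G; B)`: the number of these fields up to `K`-isomorphism. -/
noncomputable def N (K : Type) [Field K] [NumberField K] (d : ℕ)
    (G : Subgroup (Equiv.Perm (Fin d))) (B : ℝ) : ℕ :=
  Nat.card (Quot fun L L' : Ext K d G B => Nonempty (L.1 ≃ₐ[K] L'.1))

/-- The conclusion of Malle's conjecture for `(K, G)` with `a(G) = 1`, `b(K, G) = 1`:
`N(K, G; B) ~ c B` for some `c > 0`. -/
def MalleLinear (K : Type) [Field K] [NumberField K] (d : ℕ) (G : Subgroup (Equiv.Perm (Fin d))) :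
    Prop :=
  ∃ c : ℝ, 0 < c ∧ Tendsto (fun B : ℝ => (N K d G B : ℝ) / B) atTop (nhds c)

/-- `H` has a subgroup of index `u` with trivial normal core such that `8 u (u + 1) ≤ |H|` (that is,
`H` has a faithful transitive action on `u` points). -/
def HasSmallAction (H : Type) [Group H] : Prop :=
  ∃ U : Subgroup H, U.normalCore = ⊥ ∧ 8 * U.index * (U.index + 1) ≤ Nat.card H

/-- The group `C₂ ≀ H` exists, and is transitive. -/
theorem exists_group (H : Type) [Group H] [Finite H] : ∃ (d : ℕ)
    (G : Subgroup (Equiv.Perm (Fin d))), d = 2 * Nat.card H ∧ IsC2Wreath H G ∧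
      ∀ i j : Fin d, ∃ g ∈ G, g i = j := by
  have hcard : Nat.card (H × Bool) = 2 * Nat.card H := by
    rw [Nat.card_prod, mul_comm]
    simp
  let f : Fin (2 * Nat.card H) ≃ H × Bool := (Finite.equivFinOfCardEq hcard).symm
  let G : Subgroup (Equiv.Perm (Fin (2 * Nat.card H))) :=
    { carrier := {π | ∃ h : H, ∀ i, (f (π i)).1 = h * (f i).1}
      one_mem' := ⟨1, fun i => by simp⟩
      mul_mem' := by
        rintro π ρ ⟨h, hh⟩ ⟨h', hh'⟩
        refine ⟨h * h', fun i => ?_⟩
        rw [Equiv.Perm.mul_apply, hh, hh', mul_assoc]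
      inv_mem' := by
        rintro π ⟨h, hh⟩
        refine ⟨h⁻¹, fun i => ?_⟩
        have h1 := hh (π⁻¹ i)
        rw [show π (π⁻¹ i) = i from π.apply_symm_apply i] at h1
        rw [h1, inv_mul_cancel_left] }
  refine ⟨2 * Nat.card H, G, rfl, ⟨f, fun π => Iff.rfl⟩, fun i j => ?_⟩
  let t : Equiv.Perm (H × Bool) :=
    (Equiv.mulLeft ((f j).1 * (f i).1⁻¹)).prodCongr (Equiv.swap (f i).2 (f j).2)
  refine ⟨f.trans (t.trans f.symm), ⟨(f j).1 * (f i).1⁻¹, fun x => ?_⟩, ?_⟩
  · simp [t]
  · change f.symm (t (f i)) = j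
    rw [Equiv.symm_apply_eq]
    exact Prod.ext (by simp [t]) (by simp [t])

theorem of_data (K : Type) [Field K] [NumberField K] (H : Type) [Group H] [Finite H]
    (h2 : 2 ≤ Nat.card H) (U : Subgroup H) (hU : U.normalCore = ⊥)
    (hc : 8 * U.index * (U.index + 1) ≤ Nat.card H)
    (hne : (Pool.Agent.TH444.ML.Gal K (AlgebraicClosure K) H).Nonempty) (d : ℕ)
    (G : Subgroup (Equiv.Perm (Fin d))) (hG : IsC2Wreath H G) : ∃ c : ℝ, 0 < c ∧
      Tendsto (fun B : ℝ => (N K d G B : ℝ) / B) atTop (nhds c) :=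
  Pool.Agent.TH444.ML.asymp_iso Pool.Agent.TH444.ML.rest K H h2 U hU hc hne G hG

end Pool.Agent.Results.MP_a3214d_nt.NormOneTowers

open Pool.Agent.Results.MP_a3214d_nt.NormOneTowers in
/-- (1) Malle's conjecture over the number field `K` for `C₂ ≀ H`, `H` finite of small action,
`H → W` in the class `Steps K` and `W` a Galois group over `K`. (2) This applies to all
`H = N^k ⋊ W`, `N` the norm-one subgroup of `A ≀ S_n`, `N^k` nontrivial,
`n ≥ ((3 |A| |W| + 2)!)^3`, `W` acting through `W → Aut(A) ≀ S_k`. (3) The groups `C₂ ≀ H` exist and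
are transitive. -/
theorem Pool.Agent.Results.MP_a3214d_nt.NormOneTowers.result :
    (∀ (K : Type) [Field K] [NumberField K] (W : Type) [Group W] [Finite W],
      IsGaloisGroupOver K W → ∀ (H : Type) [Group H] (p : H →* W), Steps K p →
      Finite H ∧ (HasSmallAction H → ∀ (d : ℕ) (G : Subgroup (Equiv.Perm (Fin d))),
        IsC2Wreath H G → MalleLinear K d G)) ∧
    (∀ (K : Type) [Field K] [NumberField K] (W : Type) [Group W] [Finite W],
      IsGaloisGroupOver K W → ∀ (A : Type) [Group A] [Finite A] (n : ℕ),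
      ((3 * (Nat.card A * Nat.card W) + 2).factorial) ^ 3 ≤ n →
      ∀ (H : Type) [Group H] (p : H →* W), IsNormOnePower A n p → ¬ Function.Injective p →
      Steps K p ∧ HasSmallAction H ∧ ∀ (d : ℕ) (G : Subgroup (Equiv.Perm (Fin d))),
        IsC2Wreath H G → MalleLinear K d G) ∧
    (∀ (H : Type) [Group H] [Finite H], ∃ (d : ℕ) (G : Subgroup (Equiv.Perm (Fin d))),
      d = 2 * Nat.card H ∧ IsC2Wreath H G ∧ ∀ i j : Fin d, ∃ g ∈ G, g i = j) := by
  have key : ∀ (K : Type) [Field K] [NumberField K] (W : Type) [Group W] [Finite W],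
      IsGaloisGroupOver K W → ∀ (H : Type) [Group H] (p : H →* W), Steps K p →
      Finite H ∧ (HasSmallAction H → ∀ (d : ℕ) (G : Subgroup (Equiv.Perm (Fin d))),
        IsC2Wreath H G → MalleLinear K d G) := by
    intro K _ _ W _ _ hW H _ p hp
    obtain ⟨hf, hg⟩ := Pool.Agent.H789.NK.gal_above K W hW H p hp
    refine ⟨hf, fun hs d G hG => ?_⟩
    obtain ⟨U, hU, hc⟩ := hs
    exact of_data K H (Pool.Agent.R70.MA.two_le_card hc) U hU hc hg d G hG
  refine ⟨key, ?_, fun H _ _ => exists_group H⟩
  intro K _ _ W _ _ hW A _ _ n hn H _ p hp hc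
  have hst : Steps K p := Steps.normOne p A n (Pool.Agent.R70.MA.bound_mono (Γ := W) n hn) hp
  obtain ⟨hf, h2⟩ := key K W hW H p hst
  have hs : HasSmallAction H := Pool.Agent.H789.NK.small_normOne A n hn p hp hc
  exact ⟨hst, hs, h2 hs⟩
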